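import Pool.Agent.Work.MP_f2148a_nt.M56.CO.Det

/-!
BLOCK CO (contact order, helper5), part 2: a real form `g` of bidegree `(m,2)`, `m ≤ 4`, cannot
have contact of order `> 14` with the flat curve near `r = 0`, uniformly in a neighbourhood of
`c = 0`, and at all centres `a` near `0`.
-/

namespace Pool.Agent.Work.MP_f2148a_nt.M56.CO

open Polynomial Filter Topology

/-- The restriction of the form `g` of bidegree `(m,2)` to the flat curve. -/
noncomputable def GG (l c : ℝ) (m : ℕ) (g : ℕ → ℕ → ℝ) : ℝ[X] :=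
  ∑ i ∈ Finset.range (m + 1), ∑ j ∈ Finset.range 3,
    C (g i j) * ((-P2 c) ^ i * P1 l c ^ (m - i) * X ^ j)

/-- coefficientwise continuous families of polynomials -/
def CC (f : ℝ × ℝ → ℝ[X]) : Prop := ∀ k, Continuous fun p => (f p).coeff k

private lemma cc_sub {f g : ℝ × ℝ → ℝ[X]} (hf : CC f) (hg : CC g) : CC fun p => f p - g p := by
  intro k; simp only [coeff_sub]; exact (hf k).sub (hg k)

private lemma cc_add {f g : ℝ × ℝ → ℝ[X]} (hf : CC f) (hg : CC g) : CC fun p => f p + g p := by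
  intro k; simp only [coeff_add]; exact (hf k).add (hg k)

private lemma cc_neg {f : ℝ × ℝ → ℝ[X]} (hf : CC f) : CC fun p => -f p := by
  intro k; simp only [coeff_neg]; exact (hf k).neg

private lemma cc_mul {f g : ℝ × ℝ → ℝ[X]} (hf : CC f) (hg : CC g) : CC fun p => f p * g p := by
  intro k
  simp only [coeff_mul]
  exact continuous_finsetSum _ fun x _ => (hf x.1).mul (hg x.2)

private lemma cc_const (q : ℝ[X]) : CC fun _ => q := fun _ => continuous_const

private lemma cc_pow {f : ℝ × ℝ → ℝ[X]} (hf : CC f) (n : ℕ) : CC fun p => f p ^ n := by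
  induction n with
  | zero => simpa using cc_const 1
  | succ n ih => simpa [pow_succ] using cc_mul ih hf

private lemma cc_C {f : ℝ × ℝ → ℝ} (hf : Continuous f) : CC fun p => C (f p) := by
  intro k
  by_cases h : k = 0
  · simpa [coeff_C, h] using hf
  · simpa [coeff_C, h] using continuous_const

private lemma cc_Xa : CC fun p => X + C p.2 := cc_add (cc_const X) (cc_C continuous_snd)

private lemma taylor_P1 (l c a : ℝ) : taylor a (P1 l c) =
    1 - C (6 * l) * (X + C a) ^ 2 - C (2 * c) * (X + C a) ^ 3 - C (3 * l ^ 2) * (X + C a) ^ 4 := by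
  simp [P1, taylor_mul]

private lemma taylor_P2 (c a : ℝ) : taylor a (P2 c) = C 2 * (X + C a) - C c * (X + C a) ^ 4 := by
  simp [P2, taylor_mul]

private lemma cc_P1 (l : ℝ) : CC fun p => taylor p.2 (P1 l p.1) := by
  simp only [taylor_P1]
  exact cc_sub (cc_sub (cc_sub (cc_const 1)
    (cc_mul (cc_C continuous_const) (cc_pow cc_Xa 2)))
    (cc_mul (cc_C (continuous_const.mul continuous_fst)) (cc_pow cc_Xa 3)))
    (cc_mul (cc_C continuous_const) (cc_pow cc_Xa 4))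

private lemma cc_P2 : CC fun p => taylor p.2 (P2 p.1) := by
  simp only [taylor_P2]
  exact cc_sub (cc_mul (cc_C continuous_const) cc_Xa)
    (cc_mul (cc_C continuous_fst) (cc_pow cc_Xa 4))

/-- the 15 x 15 matrix of Taylor coefficients -/
noncomputable def Mx (l : ℝ) (p : ℝ × ℝ) : Matrix (Fin 15) (Fin 15) ℝ := fun k n =>
  (taylor p.2 ((-P2 p.1) ^ ((n : ℕ) / 3) * P1 l p.1 ^ (4 - (n : ℕ) / 3)
    * X ^ ((n : ℕ) % 3))).coeff k

private lemma cont_Mx (l : ℝ) : Continuous (Mx l) := by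
  refine continuous_pi fun k => continuous_pi fun n => ?_
  have h : CC fun p => (-(taylor p.2 (P2 p.1))) ^ ((n : ℕ) / 3)
      * (taylor p.2 (P1 l p.1)) ^ (4 - (n : ℕ) / 3) * (X + C p.2) ^ ((n : ℕ) % 3) :=
    cc_mul (cc_mul (cc_pow (cc_neg cc_P2) _) (cc_pow (cc_P1 l) _)) (cc_pow cc_Xa _)
  have h2 := h k
  refine h2.congr fun p => ?_
  simp [Mx, taylor_mul, taylor_pow]

private lemma Mx_zero (l : ℤ) : Mx (l : ℝ) (0, 0) = (Az l).map (Int.castRingHom ℝ) := by
  ext k n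
  simp only [Mx, taylor_zero, Matrix.map_apply, Az, eq_intCast]
  exact coeff_col l _ _ _ _

private lemma det_Mx_zero (l : ℤ) (hl : l = 1 ∨ l = -1) : (Mx (l : ℝ) (0, 0)).det ≠ 0 := by
  rw [Mx_zero]
  have h := RingHom.map_det (Int.castRingHom ℝ) (Az l)
  rw [RingHom.mapMatrix_apply] at h
  rw [← h, eq_intCast]
  exact_mod_cast Az_det l hl

private lemma sum15 (f : ℕ → ℕ → ℝ[X]) :
    ∑ i ∈ Finset.range 5, ∑ j ∈ Finset.range 3, f i j
      = ∑ n : Fin 15, f ((n : ℕ) / 3) ((n : ℕ) % 3) := by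
  rw [Fin.sum_univ_eq_sum_range (fun n => f (n / 3) (n % 3)) 15]
  simp [Finset.sum_range_succ]
  abel

private lemma coeff_GG (l : ℝ) (p : ℝ × ℝ) (g : ℕ → ℕ → ℝ) (k : Fin 15) :
    (taylor p.2 (GG l p.1 4 g)).coeff k
      = (Mx l p).mulVec (fun n => g ((n : ℕ) / 3) ((n : ℕ) % 3)) k := by
  have h : GG l p.1 4 g = ∑ n : Fin 15, C (g ((n : ℕ) / 3) ((n : ℕ) % 3)) *
      ((-P2 p.1) ^ ((n : ℕ) / 3) * P1 l p.1 ^ (4 - (n : ℕ) / 3) * X ^ ((n : ℕ) % 3)) := by
    have := sum15 fun i j => C (g i j) * ((-P2 p.1) ^ i * P1 l p.1 ^ (4 - i) * X ^ j)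
    simpa [GG] using this
  rw [h, map_sum, finset_sum_coeff, Matrix.mulVec, dotProduct]
  refine Finset.sum_congr rfl fun n _ => ?_
  rw [taylor_mul, taylor_C, coeff_C_mul, mul_comm]
  rfl

/-- The case `m = 4` near one value of `l`. -/
private lemma near4 (l : ℤ) (hl : l = 1 ∨ l = -1) : ∃ c₁ : ℝ, 0 < c₁ ∧
    ∀ᶠ p : ℝ × ℝ in 𝓝 (0, 0), ∀ g : ℕ → ℕ → ℝ, ∀ i ≤ 4, ∀ j ≤ 2, ∃ k ≤ 14,
      c₁ * |g i j| ≤ |(taylor p.2 (GG l p.1 4 g)).coeff k| := by
  have hc := cont_Mx (l : ℝ)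
  set d0 := |(Mx (l : ℝ) (0, 0)).det| with hd0
  have hd : 0 < d0 := abs_pos.mpr (det_Mx_zero l hl)
  have hdet : ∀ᶠ p : ℝ × ℝ in 𝓝 (0, 0), d0 / 2 < |(Mx (l : ℝ) p).det| := by
    have h1 : Continuous fun p => |(Mx (l : ℝ) p).det| := (hc.matrix_det).abs
    exact (h1.tendsto (0, 0)).eventually (lt_mem_nhds (half_lt_self hd))
  have hadj : ∀ n k : Fin 15, ∀ᶠ p : ℝ × ℝ in 𝓝 (0, 0),
      |(Mx (l : ℝ) p).adjugate n k| < |(Mx (l : ℝ) (0, 0)).adjugate n k| + 1 := by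
    intro n k
    have h1 : Continuous fun p => |(Mx (l : ℝ) p).adjugate n k| :=
      ((hc.matrix_adjugate).matrix_elem n k).abs
    exact (h1.tendsto (0, 0)).eventually (gt_mem_nhds (lt_add_one _))
  set B := ∑ n : Fin 15, ∑ k : Fin 15, (|(Mx (l : ℝ) (0, 0)).adjugate n k| + 1) with hB
  have hB1 : ∀ n k : Fin 15, |(Mx (l : ℝ) (0, 0)).adjugate n k| + 1 ≤ B := by
    intro n k
    have h0 : ∀ n k : Fin 15, 0 ≤ |(Mx (l : ℝ) (0, 0)).adjugate n k| + 1 := fun _ _ => by positivity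
    calc |(Mx (l : ℝ) (0, 0)).adjugate n k| + 1
        ≤ ∑ k : Fin 15, (|(Mx (l : ℝ) (0, 0)).adjugate n k| + 1) :=
          Finset.single_le_sum (f := fun k => |(Mx (l : ℝ) (0, 0)).adjugate n k| + 1)
            (fun k _ => h0 n k) (Finset.mem_univ k)
      _ ≤ B := Finset.single_le_sum
            (f := fun n => ∑ k : Fin 15, (|(Mx (l : ℝ) (0, 0)).adjugate n k| + 1))
            (fun n _ => Finset.sum_nonneg fun k _ => h0 n k) (Finset.mem_univ n)
  have hBpos : 0 < B := lt_of_lt_of_le (by positivity) (hB1 0 0)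
  refine ⟨d0 / 2 / (15 * B), by positivity, ?_⟩
  have hall := eventually_all.mpr fun n => eventually_all.mpr fun k => hadj n k
  filter_upwards [hdet, hall] with p hp1 hp2 g i hi j hj
  set v : Fin 15 → ℝ := fun n => g ((n : ℕ) / 3) ((n : ℕ) % 3) with hv
  set w := (Mx (l : ℝ) p).mulVec v with hw
  have hn : 3 * i + j < 15 := by omega
  have hvn : v ⟨3 * i + j, hn⟩ = g i j := by
    simp only [hv]
    congr 1 <;> omega
  by_contra hcon
  push Not at hcon
  have hwk : ∀ k : Fin 15, |w k| < d0 / 2 / (15 * B) * |g i j| := by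
    intro k
    have := hcon k (by omega)
    rwa [coeff_GG] at this
  have hgpos : 0 < |g i j| := by
    rcases (abs_nonneg (g i j)).lt_or_eq with h | h
    · exact h
    · exfalso
      have := hwk 0
      rw [← h, mul_zero] at this
      exact absurd this (not_lt.mpr (abs_nonneg _))
  have hid : (Mx (l : ℝ) p).det * g i j
      = ∑ k : Fin 15, (Mx (l : ℝ) p).adjugate ⟨3 * i + j, hn⟩ k * w k := by
    have h1 : (Mx (l : ℝ) p).adjugate.mulVec w = (Mx (l : ℝ) p).det • v := by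
      rw [hw, Matrix.mulVec_mulVec, Matrix.adjugate_mul, Matrix.smul_mulVec, Matrix.one_mulVec]
    have h2 := congrFun h1 ⟨3 * i + j, hn⟩
    rw [Pi.smul_apply, smul_eq_mul, hvn] at h2
    rw [← h2]; rfl
  have hlow : d0 / 2 * |g i j| < |(Mx (l : ℝ) p).det * g i j| := by
    rw [abs_mul]; exact mul_lt_mul_of_pos_right hp1 hgpos
  have hup : |(Mx (l : ℝ) p).det * g i j| ≤ d0 / 2 * |g i j| := by
    rw [hid]
    calc |∑ k : Fin 15, (Mx (l : ℝ) p).adjugate ⟨3 * i + j, hn⟩ k * w k|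
        ≤ ∑ k : Fin 15, |(Mx (l : ℝ) p).adjugate ⟨3 * i + j, hn⟩ k * w k| :=
          Finset.abs_sum_le_sum_abs _ _
      _ ≤ ∑ _k : Fin 15, B * (d0 / 2 / (15 * B) * |g i j|) := by
          refine Finset.sum_le_sum fun k _ => ?_
          rw [abs_mul]
          exact mul_le_mul ((hp2 _ k).le.trans (hB1 _ k)) (hwk k).le (abs_nonneg _) hBpos.le
      _ = d0 / 2 * |g i j| := by
          rw [Finset.sum_const, Finset.card_univ, Fintype.card_fin, nsmul_eq_mul]
          field_simp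
          ring
  exact absurd hup (not_le.mpr hlow)

private lemma GG_lift (l c : ℝ) (m : ℕ) (hm : m ≤ 4) (g : ℕ → ℕ → ℝ) :
    GG l c 4 (fun i j => if i ≤ m then g i j else 0) = P1 l c ^ (4 - m) * GG l c m g := by
  unfold GG
  have hsub : Finset.range (m + 1) ⊆ Finset.range (4 + 1) := by
    intro x hx; simp only [Finset.mem_range] at hx ⊢; omega
  rw [← Finset.sum_subset hsub]
  · rw [Finset.mul_sum]
    refine Finset.sum_congr rfl fun i hi => ?_
    rw [Finset.mul_sum]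
    refine Finset.sum_congr rfl fun j _ => ?_
    have hi' : i ≤ m := by simp only [Finset.mem_range] at hi; omega
    have h4 : 4 - i = (4 - m) + (m - i) := by omega
    simp only [if_pos hi']
    rw [h4, pow_add]
    ring
  · intro i _ hi
    have hi' : ¬ i ≤ m := by simp only [Finset.mem_range] at hi; omega
    simp [hi']

/-- All `m ≤ 4` near one value of `l`. -/
private lemma nearm (l : ℤ) (hl : l = 1 ∨ l = -1) : ∃ c₁ : ℝ, 0 < c₁ ∧
    ∀ᶠ p : ℝ × ℝ in 𝓝 (0, 0), ∀ m ≤ 4, ∀ g : ℕ → ℕ → ℝ, ∀ i ≤ m, ∀ j ≤ 2, ∃ k ≤ 14,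
      c₁ * |g i j| ≤ |(taylor p.2 (GG l p.1 m g)).coeff k| := by
  obtain ⟨c₁, hc₁, h4⟩ := near4 l hl
  have hco : ∀ e : Fin 5, ∀ k : Fin 15, ∀ᶠ p : ℝ × ℝ in 𝓝 (0, 0),
      |((taylor p.2 (P1 l p.1)) ^ (e : ℕ)).coeff k|
        < |((taylor (0 : ℝ) (P1 l 0)) ^ (e : ℕ)).coeff k| + 1 := by
    intro e k
    have h1 : Continuous fun p : ℝ × ℝ => |((taylor p.2 (P1 l p.1)) ^ (e : ℕ)).coeff k| :=
      (cc_pow (cc_P1 l) e k).abs
    exact (h1.tendsto (0, 0)).eventually (gt_mem_nhds (lt_add_one _))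
  have hall := eventually_all.mpr fun e => eventually_all.mpr fun k => hco e k
  set B := ∑ e : Fin 5, ∑ k : Fin 15, (|((taylor (0 : ℝ) (P1 l 0)) ^ (e : ℕ)).coeff k| + 1)
    with hB
  have hB1 : ∀ (e : Fin 5) (k : Fin 15),
      |((taylor (0 : ℝ) (P1 l 0)) ^ (e : ℕ)).coeff k| + 1 ≤ B := by
    intro n k
    have h0 : ∀ (n : Fin 5) (k : Fin 15),
      0 ≤ |((taylor (0 : ℝ) (P1 l 0)) ^ (n : ℕ)).coeff k| + 1 := fun _ _ => by positivity
    calc |((taylor (0 : ℝ) (P1 l 0)) ^ (n : ℕ)).coeff k| + 1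
        ≤ ∑ k : Fin 15, (|((taylor (0 : ℝ) (P1 l 0)) ^ (n : ℕ)).coeff k| + 1) :=
          Finset.single_le_sum
            (f := fun k : Fin 15 => |((taylor (0 : ℝ) (P1 l 0)) ^ (n : ℕ)).coeff k| + 1)
            (fun k _ => h0 n k) (Finset.mem_univ k)
      _ ≤ B := Finset.single_le_sum
            (f := fun n : Fin 5 => ∑ k : Fin 15,
              (|((taylor (0 : ℝ) (P1 l 0)) ^ (n : ℕ)).coeff k| + 1))
            (fun n _ => Finset.sum_nonneg fun k _ => h0 n k) (Finset.mem_univ n)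
  have hBpos : 0 < B := lt_of_lt_of_le (by positivity) (hB1 0 0)
  refine ⟨c₁ / (15 * B), by positivity, ?_⟩
  filter_upwards [h4, hall] with p hp4 hpall m hm g i hi j hj
  obtain ⟨k, hk, hkk⟩ := hp4 (fun i j => if i ≤ m then g i j else 0) i (by omega) j hj
  rw [if_pos hi, GG_lift l p.1 m hm g, taylor_mul, taylor_pow, coeff_mul] at hkk
  by_contra hcon
  push Not at hcon
  have hgpos : 0 < |g i j| := by
    rcases (abs_nonneg (g i j)).lt_or_eq with h | h
    · exact h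
    · exfalso
      have := hcon 0 (by omega)
      rw [← h, mul_zero] at this
      exact absurd this (not_lt.mpr (abs_nonneg _))
  have hne : (Finset.HasAntidiagonal.antidiagonal k).Nonempty := ⟨(0, k), by simp⟩
  have hcard : ((Finset.HasAntidiagonal.antidiagonal k).card : ℝ) ≤ 15 := by
    rw [Finset.Nat.card_antidiagonal]; exact_mod_cast (by omega : k + 1 ≤ 15)
  have hup : |∑ x ∈ Finset.HasAntidiagonal.antidiagonal k, ((taylor p.2 (P1 l p.1)) ^ (4 - m)).coeff x.1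
      * (taylor p.2 (GG l p.1 m g)).coeff x.2| < c₁ * |g i j| := by
    calc |∑ x ∈ Finset.HasAntidiagonal.antidiagonal k, ((taylor p.2 (P1 l p.1)) ^ (4 - m)).coeff x.1
      * (taylor p.2 (GG l p.1 m g)).coeff x.2|
        ≤ ∑ x ∈ Finset.HasAntidiagonal.antidiagonal k, |((taylor p.2 (P1 l p.1)) ^ (4 - m)).coeff x.1
      * (taylor p.2 (GG l p.1 m g)).coeff x.2| := Finset.abs_sum_le_sum_abs _ _
      _ < ∑ _x ∈ Finset.HasAntidiagonal.antidiagonal k, B * (c₁ / (15 * B) * |g i j|) := by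
          refine Finset.sum_lt_sum_of_nonempty hne fun x hx => ?_
          rw [Finset.HasAntidiagonal.mem_antidiagonal] at hx
          rw [abs_mul]
          have h1 : |((taylor p.2 (P1 l p.1)) ^ (4 - m)).coeff x.1| ≤ B := by
            have := hpall ⟨4 - m, by omega⟩ ⟨x.1, by omega⟩
            exact this.le.trans (hB1 ⟨4 - m, by omega⟩ ⟨x.1, by omega⟩)
          have h2 := hcon x.2 (by omega)
          calc |((taylor p.2 (P1 l p.1)) ^ (4 - m)).coeff x.1|
                * |(taylor p.2 (GG l p.1 m g)).coeff x.2|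
              ≤ B * |(taylor p.2 (GG l p.1 m g)).coeff x.2| :=
                mul_le_mul_of_nonneg_right h1 (abs_nonneg _)
            _ < B * (c₁ / (15 * B) * |g i j|) := mul_lt_mul_of_pos_left h2 hBpos
      _ = (Finset.HasAntidiagonal.antidiagonal k).card * (c₁ / 15 * |g i j|) := by
          rw [Finset.sum_const, nsmul_eq_mul]
          field_simp
      _ ≤ 15 * (c₁ / 15 * |g i j|) := mul_le_mul_of_nonneg_right hcard (by positivity)
      _ = c₁ * |g i j| := by ring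
  exact absurd hkk (not_le.mpr hup)

/-- CONTACT ORDER. A real form of bidegree `(m,2)`, `m ≤ 4`, restricted to the flat curve has, at
every centre `a` near `0`, a Taylor coefficient of index `≤ 14` comparable with its height. -/
theorem contact : ∃ c₀ : ℝ, 0 < c₀ ∧ ∀ l c a : ℝ, |l| = 1 → |c| ≤ c₀ → |a| ≤ c₀ →
    ∀ m ≤ 4, ∀ g : ℕ → ℕ → ℝ, ∀ i ≤ m, ∀ j ≤ 2, ∃ k ≤ 14,
      c₀ * |g i j| ≤ |(taylor a (GG l c m g)).coeff k| := by
  obtain ⟨c₁, hc₁, h1⟩ := nearm 1 (Or.inl rfl)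
  obtain ⟨c₂, hc₂, h2⟩ := nearm (-1) (Or.inr rfl)
  obtain ⟨ε₁, hε₁, h1⟩ := Metric.eventually_nhds_iff.mp h1
  obtain ⟨ε₂, hε₂, h2⟩ := Metric.eventually_nhds_iff.mp h2
  have hdist : ∀ c a e : ℝ, |c| < e → |a| < e → dist ((c, a) : ℝ × ℝ) (0, 0) < e := by
    intro c a e hc ha
    rw [Prod.dist_eq, Real.dist_eq, Real.dist_eq, sub_zero, sub_zero]
    exact max_lt hc ha
  refine ⟨min (min c₁ c₂) (min (ε₁ / 2) (ε₂ / 2)), by positivity, ?_⟩
  intro l c a hl hc ha m hm g i hi j hj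
  have e1 : min (min c₁ c₂) (min (ε₁ / 2) (ε₂ / 2)) < ε₁ :=
    ((min_le_right _ _).trans (min_le_left _ _)).trans_lt (half_lt_self hε₁)
  have e2 : min (min c₁ c₂) (min (ε₁ / 2) (ε₂ / 2)) < ε₂ :=
    ((min_le_right _ _).trans (min_le_right _ _)).trans_lt (half_lt_self hε₂)
  have e3 : min (min c₁ c₂) (min (ε₁ / 2) (ε₂ / 2)) ≤ c₁ :=
    (min_le_left _ _).trans (min_le_left _ _)
  have e4 : min (min c₁ c₂) (min (ε₁ / 2) (ε₂ / 2)) ≤ c₂ :=
    (min_le_left _ _).trans (min_le_right _ _)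
  rcases eq_or_eq_neg_of_abs_eq hl with h | h
  · obtain ⟨k, hk, hkk⟩ := h1 (hdist c a _ (hc.trans_lt e1) (ha.trans_lt e1)) m hm g i hi j hj
    refine ⟨k, hk, (mul_le_mul_of_nonneg_right e3 (abs_nonneg _)).trans ?_⟩
    rw [h]; simpa using hkk
  · obtain ⟨k, hk, hkk⟩ := h2 (hdist c a _ (hc.trans_lt e2) (ha.trans_lt e2)) m hm g i hi j hj
    refine ⟨k, hk, (mul_le_mul_of_nonneg_right e4 (abs_nonneg _)).trans ?_⟩
    rw [h]; simpa using hkk

end Pool.Agent.Work.MP_f2148a_nt.M56.CO
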