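import Mathlib

/-!
BLOCK CO (contact order, helper5), part 1: the 15 x 15 determinant.

`P1 = 1-6lX²-2cX³-3l²X⁴`, `P2 = 2X-cX⁴`. For a form `g` of bidegree `(4,2)` with coefficients
`g i j` (`d₁^i d₂^(4-i) ξ^(2-j) υ^j`) the restriction to the flat curve is
`Σ g i j (-P2)^i P1^(4-i) X^j`. For `c = 0`, `l = ±1` the map from `g` to the first 15 coefficients
is invertible (the determinant is not divisible by 7).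
-/

namespace Pool.Agent.Work.MP_f2148a_nt.M56.CO

open Polynomial

/-- The polynomial `p₁(r)`. -/
noncomputable def P1 (l c : ℝ) : ℝ[X] :=
  1 - C (6 * l) * X ^ 2 - C (2 * c) * X ^ 3 - C (3 * l ^ 2) * X ^ 4

/-- The polynomial `p₂(r)`. -/
noncomputable def P2 (c : ℝ) : ℝ[X] := C 2 * X - C c * X ^ 4

/-- coefficients of `(1-6lX²-3l²X⁴)^e` -/
def qf (l : ℤ) : ℕ → ℕ → ℤ
  | 0, k => if k = 0 then 1 else 0
  | e + 1, k => qf l e k - 6 * l * (if 2 ≤ k then qf l e (k - 2) else 0)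
      - 3 * l ^ 2 * (if 4 ≤ k then qf l e (k - 4) else 0)

/-- the integral matrix at `c = 0` -/
def Az (l : ℤ) : Matrix (Fin 15) (Fin 15) ℤ := fun k n =>
  (-2) ^ ((n : ℕ) / 3) * (if (n : ℕ) / 3 + (n : ℕ) % 3 ≤ (k : ℕ) then
    qf l (4 - (n : ℕ) / 3) ((k : ℕ) - ((n : ℕ) / 3 + (n : ℕ) % 3)) else 0)

/-- inverse modulo 7 for `l = 1` -/
def B1 : Matrix (Fin 15) (Fin 15) (ZMod 7) := !![
  1, 0, 0, 0, 0, 0, 0, 0, 0, 0, 0, 0, 0, 0, 0;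
  0, 0, 0, 5, 0, 0, 0, 4, 0, 6, 0, 1, 0, 2, 0;
  0, 0, 2, 0, 0, 0, 0, 0, 0, 0, 6, 0, 4, 0, 6;
  0, 3, 0, 6, 0, 0, 0, 2, 0, 3, 0, 4, 0, 1, 0;
  2, 0, 2, 0, 0, 0, 0, 0, 0, 0, 6, 0, 4, 0, 2;
  0, 3, 0, 1, 0, 0, 0, 5, 0, 4, 0, 3, 0, 3, 0;
  0, 0, 6, 0, 0, 0, 0, 0, 0, 0, 5, 0, 1, 0, 3;
  0, 4, 0, 6, 0, 0, 0, 2, 0, 3, 0, 5, 0, 5, 0;
  1, 0, 0, 0, 0, 0, 0, 0, 0, 0, 0, 0, 1, 0, 1;
  0, 6, 0, 5, 0, 0, 0, 2, 0, 3, 0, 1, 0, 2, 0;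
  1, 0, 0, 0, 0, 0, 0, 0, 5, 0, 1, 0, 5, 0, 2;
  0, 6, 0, 0, 0, 0, 0, 0, 0, 5, 0, 1, 0, 3, 0;
  4, 0, 6, 0, 4, 0, 0, 0, 6, 0, 4, 0, 4, 0, 2;
  0, 2, 0, 6, 0, 4, 0, 1, 0, 4, 0, 4, 0, 2, 0;
  4, 0, 5, 0, 0, 0, 4, 0, 6, 0, 1, 0, 0, 0, 5]

/-- inverse modulo 7 for `l = -1` -/
def B2 : Matrix (Fin 15) (Fin 15) (ZMod 7) := !![
  1, 0, 0, 0, 0, 0, 0, 0, 0, 0, 0, 0, 0, 0, 0;
  0, 0, 0, 2, 0, 0, 0, 3, 0, 6, 0, 6, 0, 2, 0;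
  0, 0, 2, 0, 0, 0, 0, 0, 0, 0, 6, 0, 3, 0, 6;
  0, 3, 0, 1, 0, 0, 0, 5, 0, 3, 0, 3, 0, 1, 0;
  5, 0, 2, 0, 0, 0, 0, 0, 0, 0, 6, 0, 3, 0, 2;
  0, 4, 0, 1, 0, 0, 0, 5, 0, 3, 0, 3, 0, 4, 0;
  0, 0, 6, 0, 0, 0, 0, 0, 0, 0, 5, 0, 6, 0, 3;
  0, 3, 0, 6, 0, 0, 0, 2, 0, 4, 0, 5, 0, 2, 0;
  1, 0, 0, 0, 0, 0, 0, 0, 0, 0, 0, 0, 1, 0, 6;
  0, 1, 0, 5, 0, 0, 0, 2, 0, 4, 0, 1, 0, 5, 0;
  1, 0, 0, 0, 0, 0, 0, 0, 5, 0, 6, 0, 5, 0, 5;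
  0, 6, 0, 0, 0, 0, 0, 0, 0, 5, 0, 6, 0, 3, 0;
  4, 0, 1, 0, 4, 0, 0, 0, 6, 0, 3, 0, 4, 0, 5;
  0, 2, 0, 1, 0, 4, 0, 6, 0, 4, 0, 3, 0, 2, 0;
  3, 0, 5, 0, 0, 0, 4, 0, 1, 0, 1, 0, 0, 0, 5]

private lemma chk1 : ∀ i j : Fin 15, ∑ k : Fin 15, B1 i k * ((Az 1 k j : ℤ) : ZMod 7)
    = if i = j then 1 else 0 := by decide +kernel

private lemma chk2 : ∀ i j : Fin 15, ∑ k : Fin 15, B2 i k * ((Az (-1) k j : ℤ) : ZMod 7)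
    = if i = j then 1 else 0 := by decide +kernel

private lemma det_ne_of_inv (A : Matrix (Fin 15) (Fin 15) ℤ) (B : Matrix (Fin 15) (Fin 15) (ZMod 7))
    (h : ∀ i j : Fin 15, ∑ k : Fin 15, B i k * ((A k j : ℤ) : ZMod 7) = if i = j then 1 else 0) :
    A.det ≠ 0 := by
  intro h0
  have h1 : B * (A.map (Int.castRingHom (ZMod 7))) = 1 := by
    ext i j
    rw [Matrix.mul_apply, Matrix.one_apply]
    simpa using h i j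
  have h2 : (A.map (Int.castRingHom (ZMod 7))).det = 0 := by
    have := RingHom.map_det (Int.castRingHom (ZMod 7)) A
    rw [h0, map_zero] at this
    simpa [RingHom.mapMatrix_apply] using this.symm
  have h3 := congrArg Matrix.det h1
  rw [Matrix.det_mul, h2, mul_zero, Matrix.det_one] at h3
  exact absurd h3 (by decide)

/-- The determinant does not vanish. -/
theorem Az_det (l : ℤ) (hl : l = 1 ∨ l = -1) : (Az l).det ≠ 0 := by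
  rcases hl with rfl | rfl
  · exact det_ne_of_inv _ B1 chk1
  · exact det_ne_of_inv _ B2 chk2

/-- coefficients of the powers of `P1` at `c = 0` -/
theorem coeff_P1_pow (l : ℤ) (e k : ℕ) : ((P1 (l : ℝ) 0) ^ e).coeff k = (qf l e k : ℝ) := by
  induction e generalizing k with
  | zero => by_cases h : k = 0 <;> simp [qf, coeff_one, h]
  | succ e ih =>
    have h1 : (P1 (l : ℝ) 0) ^ (e + 1) = (P1 (l : ℝ) 0) ^ e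
        - C (6 * (l : ℝ)) * (X ^ 2 * (P1 (l : ℝ) 0) ^ e)
        - C (3 * (l : ℝ) ^ 2) * (X ^ 4 * (P1 (l : ℝ) 0) ^ e) := by
      rw [pow_succ]
      nth_rewrite 2 [P1]
      simp only [mul_zero, map_zero, zero_mul, sub_zero]
      ring
    rw [h1]
    simp only [coeff_sub, coeff_C_mul, coeff_X_pow_mul', ih, qf]
    push_cast
    by_cases h2 : 2 ≤ k <;> by_cases h4 : 4 ≤ k <;> simp [h2, h4]

/-- coefficients of the columns at `c = 0` -/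
theorem coeff_col (l : ℤ) (i j e k : ℕ) :
    ((-P2 0) ^ i * (P1 (l : ℝ) 0) ^ e * X ^ j).coeff k
      = (((-2) ^ i * (if i + j ≤ k then qf l e (k - (i + j)) else 0) : ℤ) : ℝ) := by
  have h1 : (-P2 0) ^ i * (P1 (l : ℝ) 0) ^ e * X ^ j
      = C ((-2 : ℝ) ^ i) * (X ^ (i + j) * (P1 (l : ℝ) 0) ^ e) := by
    have : (-P2 0 : ℝ[X]) = C (-2) * X := by
      simp [P2]
    rw [this, mul_pow, C_pow]
    ring
  rw [h1, coeff_C_mul, coeff_X_pow_mul']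
  push_cast
  by_cases h : i + j ≤ k
  · simp [h, coeff_P1_pow]
  · simp [h]

end Pool.Agent.Work.MP_f2148a_nt.M56.CO
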